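import Mathlib
import Pool.Agent.V111.B6

/-!
# An essential right ideal of a centrally essential torsion-free ring need not be an ideal

The ring is `B6 ℤ`, of rank six, and the right ideal is `y R + 2 R`; it contains `y` but not
`x y = p`.
-/

namespace Pool.Agent.Results.MP_4595ea_al.NotTwoSided

open Pool.Agent.V111 MulOpposite

/-- `R` is a torsion-free ring of finite rank: its additive group is torsion-free and
`ℚ ⊗ R` is finite-dimensional over `ℚ`. -/
def IsTorsionFreeOfFiniteRank (R : Type*) [Ring R] : Prop :=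
  (∀ (m : ℤ) (r : R), m • r = 0 → m = 0 ∨ r = 0) ∧ Module.Finite ℚ (TensorProduct ℤ ℚ R)

/-- `R` is centrally essential: for every nonzero `a` there are nonzero central `x`, `y` with
`a * x = y`. -/
def IsCentrallyEssential (R : Type*) [Ring R] : Prop :=
  ∀ a : R, a ≠ 0 →
    ∃ x ∈ Subring.center R, ∃ y ∈ Subring.center R, x ≠ 0 ∧ y ≠ 0 ∧ a * x = y

/-- A right ideal (a submodule of `R` as a module over the opposite ring) is essential if it meets
every nonzero right ideal nontrivially. -/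
def IsEssentialRightIdeal {R : Type*} [Ring R] (I : Submodule Rᵐᵒᵖ R) : Prop :=
  ∀ J : Submodule Rᵐᵒᵖ R, J ≠ ⊥ → I ⊓ J ≠ ⊥

theorem torsionFree : IsTorsionFreeOfFiniteRank (B6 ℤ) := by
  constructor
  · intro m r h
    by_cases hm : m = 0
    · exact Or.inl hm
    · right
      have h1 : m • B6.addEquiv r = 0 := by rw [← map_zsmul, h, map_zero]
      have h2 : B6.addEquiv r = 0 := by
        rcases smul_eq_zero.1 h1 with h3 | h3
        · exact absurd h3 hm
        · exact h3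
      exact (AddEquiv.map_eq_zero_iff _).1 h2
  · have : Module.Finite ℤ (B6 ℤ) :=
      Module.Finite.equiv (B6.addEquiv (k := ℤ)).toIntLinearEquiv.symm
    infer_instance

/-- The right ideal `y R + 2 R`. -/
def I : Submodule (B6 ℤ)ᵐᵒᵖ (B6 ℤ) where
  carrier := {a | 2 ∣ a.e ∧ 2 ∣ a.x ∧ 2 ∣ a.z ∧ 2 ∣ a.p}
  zero_mem' := ⟨dvd_zero _, dvd_zero _, dvd_zero _, dvd_zero _⟩
  add_mem' := by
    rintro a b ⟨h1, h2, h3, h4⟩ ⟨h5, h6, h7, h8⟩
    exact ⟨dvd_add h1 h5, dvd_add h2 h6, dvd_add h3 h7, dvd_add h4 h8⟩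
  smul_mem' := by
    rintro r a ⟨⟨s, hs⟩, ⟨t, ht⟩, ⟨u, hu⟩, ⟨v, hv⟩⟩
    refine ⟨?_, ?_, ?_, ?_⟩
    · change 2 ∣ (a * r.unop).e
      exact ⟨s * r.unop.e, by rw [B6.mul_e, hs]; ring⟩
    · change 2 ∣ (a * r.unop).x
      exact ⟨s * r.unop.x + t * r.unop.e, by rw [B6.mul_x, hs, ht]; ring⟩
    · change 2 ∣ (a * r.unop).z
      exact ⟨s * r.unop.z + u * r.unop.e, by rw [B6.mul_z, hs, hu]; ring⟩
    · change 2 ∣ (a * r.unop).p
      exact ⟨s * r.unop.p + v * r.unop.e + t * r.unop.y + t * r.unop.z + u * r.unop.x, by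
        rw [B6.mul_p, hs, ht, hu, hv]; ring⟩

theorem essential : IsEssentialRightIdeal I := by
  intro J hJ h
  apply hJ
  rw [eq_bot_iff]
  intro a ha
  rw [Submodule.mem_bot]
  have h1 : a + a ∈ I ⊓ J := by
    refine ⟨⟨?_, ?_, ?_, ?_⟩, J.add_mem ha ha⟩
    · exact ⟨a.e, by rw [B6.add_e]; ring⟩
    · exact ⟨a.x, by rw [B6.add_x]; ring⟩
    · exact ⟨a.z, by rw [B6.add_z]; ring⟩
    · exact ⟨a.p, by rw [B6.add_p]; ring⟩
  rw [h, Submodule.mem_bot] at h1
  have h2 := torsionFree.1 2 a (by rw [two_zsmul]; exact h1)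
  rcases h2 with h2 | h2
  · norm_num at h2
  · exact h2

/-- There is a centrally essential torsion-free ring of finite rank with an essential right ideal
that is not a two-sided ideal. -/
theorem result : ∃ (R : Type) (_ : Ring R), IsTorsionFreeOfFiniteRank R ∧ IsCentrallyEssential R ∧
    ∃ I : Submodule Rᵐᵒᵖ R, IsEssentialRightIdeal I ∧ ∃ r : R, ∃ a ∈ I, r * a ∉ I := by
  refine ⟨B6 ℤ, inferInstance, torsionFree, B6.ess, I, essential, ⟨0, 1, 0, 0, 0, 0⟩,
    ⟨0, 0, 1, 0, 0, 0⟩, ⟨dvd_zero _, dvd_zero _, dvd_zero _, dvd_zero _⟩, ?_⟩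
  rintro ⟨-, -, -, h⟩
  rw [B6.mul_p] at h
  norm_num at h

end Pool.Agent.Results.MP_4595ea_al.NotTwoSided
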